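import Pool.Agent.TH714.TD.Defs

/-!
# Reduced words give chains of lines (helper883, job 2162)
-/

set_option autoImplicit false

namespace Pool.Agent.TH883.TD.J2162

open Pool.Agent.TH64 Pool.Agent.TH714.TD

variable {G : Type*} [Group G] {x : G} {k : ℕ}

/-- the connecting letter -/
def cc (c : G) (s : Bool) : G := if s then c else c⁻¹

theorem so_succ (c : G) (n : ℕ) (s : Bool) (r : ℕ) (hr : r < 2) :
    so x c n s (r + 1) = so x c n s r * x ^ sl n s r * cc c s := by
  have h3 : (x ^ (3 * (n : ℤ)) : G) = x ^ (3 * n) := by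
    rw [← zpow_natCast]; push_cast; rfl
  have h2 : (x ^ (2 * (n : ℤ)) : G) = x ^ (2 * n) := by
    rw [← zpow_natCast]; push_cast; rfl
  interval_cases r
  · cases s
    · simp [so, sl, cc, h3]
    · simp [so, sl, cc]
  · cases s
    · simp [so, sl, cc, h2, mul_assoc]
    · simp [so, sl, cc, h2, mul_assoc]

theorem so_two (c : G) (n : ℕ) (a b : Fin k → G) (s : Bool × Fin k) :
    (pp a b s)⁻¹ * so x c n s.1 2 * x ^ sl n s.1 2 = ss x c n a b s * (qq a b s)⁻¹ := by
  have h3 : (x ^ (3 * (n : ℤ)) : G) = x ^ (3 * n) := by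
    rw [← zpow_natCast]; push_cast; rfl
  obtain ⟨s1, s2⟩ := s
  cases s1
  · simp [so, sl, ss, pp, qq, tt, mul_assoc]
  · simp [so, sl, ss, pp, qq, tt, h3, mul_assoc]

theorem le_sl (n : ℕ) (s : Bool) (r : ℕ) : (n : ℤ) ≤ |sl n s r| := by
  unfold sl
  have hn : (0 : ℤ) ≤ n := by positivity
  split_ifs <;> (rcases abs_cases (n : ℤ) with h | h <;> first | omega | (rw [abs_neg]; omega) | (rw [abs_of_nonneg (by omega)]; omega) | (rw [abs_neg, abs_of_nonneg (by omega)]; omega))

theorem wd_chain {G : Type*} [Group G] {H : Hyp G} {x : G} (A : Ax H x) {k : ℕ} (L : Subgroup G)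
    (c : G) (a b : Fin k → G) (hpig : PigL A.toPAx L) (hc : c ∉ Subgroup.zpowers x)
    (hS : Sep L x a b) : ∃ B : ℤ, 0 ≤ B ∧ ∀ n : ℕ, ∀ (R : ℕ) (P : ℕ → G) (w : ℕ → Bool × Fin k)
      (l : ℕ → G), 0 < R → Wd L x c n a b R P w l → ∀ p q : G, p⁻¹ * P 0 ∈ L →
      (P R)⁻¹ * q ∈ L →
      Chn A n B (we x c n a b P w) (wf x c n a b P w) (3 * R) p q := by
  obtain ⟨θ, hθ⟩ := hpig
  set K : ℕ := H.len c + ∑ j, H.len (a j) + ∑ j, H.len (b j) with hK
  have hKc : H.len c ≤ K := by omega
  have hKa : ∀ j, H.len (a j) ≤ K := fun j => by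
    have := Finset.single_le_sum (f := fun j => H.len (a j)) (fun _ _ => Nat.zero_le _)
      (Finset.mem_univ j)
    omega
  have hKb : ∀ j, H.len (b j) ≤ K := fun j => by
    have := Finset.single_le_sum (f := fun j => H.len (b j)) (fun _ _ => Nat.zero_le _)
      (Finset.mem_univ j)
    omega
  have hKp : ∀ s, H.len (pp a b s) ≤ K := fun s => by
    unfold pp; split_ifs
    · exact hKb _
    · exact hKa _
  have hKq : ∀ s, H.len (qq a b s) ≤ K := fun s => by
    unfold qq; split_ifs
    · exact hKa _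
    · exact hKb _
  set Λ : ℤ := A.c * (K : ℤ) + A.c * A.c + A.c with hΛ
  have hΛ0 : 0 ≤ Λ := by positivity
  -- short moves
  have hshort : ∀ u p g : G, H.len g ≤ K → |A.s u p (p * g)| ≤ Λ := by
    intro u p g hg
    have h1 := A.lip_s u p (p * g)
    have h2 : H.d p (p * g) = H.len g := by
      unfold Hyp.d; congr 1; group
    rw [h2] at h1
    have h3 : (A.c : ℤ) * (H.len g : ℤ) ≤ A.c * K :=
      mul_le_mul_of_nonneg_left (by exact_mod_cast hg) (by positivity)
    omega
  -- moves in `L`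
  have hL : ∀ u p q : G, p⁻¹ * q ∈ L → |A.s u p q| ≤ θ := by
    intro u p q hpq
    by_contra hcon
    push Not at hcon
    have h1 : A.s (p⁻¹ * u) 1 (p⁻¹ * q) = A.s u p q := by
      have := A.s_mul p⁻¹ u p q
      rwa [inv_mul_cancel] at this
    rw [← h1] at hcon
    obtain ⟨t, ht, htL⟩ := hθ _ 1 L.one_mem _ hpq hcon
    exact hS.free _ t ht htL
  -- junction moves
  have hjun : ∀ u X l g h : G, l ∈ L → H.len g ≤ K → H.len h ≤ K →
      |A.s u (X * g⁻¹) (X * l * h⁻¹)| ≤ 2 * Λ + θ := by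
    intro u X l g h hl hg hh
    have e := A.s_add u (X * g⁻¹) X (X * l * h⁻¹)
    have e2 := A.s_add u X (X * l) (X * l * h⁻¹)
    have h1 := hshort u X g⁻¹ (by rwa [H.len_inv])
    have h2 := hL u X (X * l) (by simpa using hl)
    have h3 := hshort u (X * l) h⁻¹ (by rwa [H.len_inv])
    rw [A.s_symm u X (X * g⁻¹)] at e
    rw [← e, ← e2]
    have t1 := abs_add_le (-A.s u X (X * g⁻¹)) (A.s u X (X * l) + A.s u (X * l) (X * l * h⁻¹))
    have t2 := abs_add_le (A.s u X (X * l)) (A.s u (X * l) (X * l * h⁻¹))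
    rw [abs_neg] at t1
    omega
  refine ⟨2 * Λ + θ, by positivity, ?_⟩
  intro n R P w l hR hw p q hp hq
  have hwe : ∀ m r, r < 3 → we x c n a b P w (3 * m + r) =
      P m * (pp a b (w m))⁻¹ * so x c n (w m).1 r := by
    intro m r hr
    have e1 : (3 * m + r) / 3 = m := by omega
    have e2 : (3 * m + r) % 3 = r := by omega
    unfold we
    rw [e1, e2]
  have hwf : ∀ m r, r < 3 → wf x c n a b P w (3 * m + r) =
      we x c n a b P w (3 * m + r) * x ^ sl n (w m).1 r := by
    intro m r hr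
    have e1 : (3 * m + r) / 3 = m := by omega
    have e2 : (3 * m + r) % 3 = r := by omega
    unfold wf
    rw [e1, e2]
  have hwf2 : ∀ m, wf x c n a b P w (3 * m + 2) =
      P m * ss x c n a b (w m) * (qq a b (w m))⁻¹ := by
    intro m
    rw [hwf m 2 (by norm_num), hwe m 2 (by norm_num)]
    have := so_two (x := x) c n a b (w m)
    rw [mul_assoc (P m), mul_assoc (P m), this, mul_assoc]
  have hwe0 : ∀ m, we x c n a b P w (3 * m) = P m * (pp a b (w m))⁻¹ := by
    intro m
    have := hwe m 0 (by norm_num)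
    simpa [so] using this
  have hin : ∀ m r, r < 2 → we x c n a b P w (3 * m + r + 1) =
      wf x c n a b P w (3 * m + r) * cc c (w m).1 := by
    intro m r hr
    rw [hwf m r (by omega), hwe m r (by omega), add_assoc, hwe m (r + 1) (by omega),
      so_succ c n _ r hr]
    simp only [mul_assoc]
  have hcc : ∀ s, H.len (cc c s) ≤ K := by
    intro s; unfold cc; split_ifs
    · exact hKc
    · rw [H.len_inv]; exact hKc
  have hccn : ∀ s, cc c s ∉ Subgroup.zpowers x := by
    intro s; unfold cc; split_ifs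
    · exact hc
    · intro h; exact hc (by simpa using inv_mem h)
  refine ⟨by omega, ?_, ?_, ?_, ?_, ?_, ?_⟩
  · intro i _
    have : wf x c n a b P w i = we x c n a b P w i * x ^ sl n (w (i / 3)).1 (i % 3) := rfl
    rw [this, inv_mul_cancel_left]
    exact Subgroup.zpow_mem _ (Subgroup.mem_zpowers x) _
  · intro i _
    have : wf x c n a b P w i = we x c n a b P w i * x ^ sl n (w (i / 3)).1 (i % 3) := rfl
    rw [this, A.s_line, inv_mul_cancel, A.κ_one, sub_zero]
    exact le_sl _ _ _
  · -- ne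
    intro i hi hmem
    obtain ⟨m, r, hr, rfl⟩ : ∃ m r, r < 3 ∧ i = 3 * m + r :=
      ⟨i / 3, i % 3, Nat.mod_lt _ (by norm_num), (Nat.div_add_mod i 3).symm⟩
    by_cases hr2 : r < 2
    · rw [hin m r hr2, hwf m r hr, mul_assoc, inv_mul_cancel_left] at hmem
      apply hccn (w m).1
      have h1 : (x ^ sl n (w m).1 r) ∈ Subgroup.zpowers x :=
        Subgroup.zpow_mem _ (Subgroup.mem_zpowers x) _
      exact (Subgroup.mul_mem_cancel_left _ h1).1 hmem
    · have hr' : r = 2 := by omega
      subst hr'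
      have hm1 : m + 1 < R := by omega
      have e : 3 * m + 2 + 1 = 3 * (m + 1) := by ring
      rw [e, hwe0 (m + 1), hw.step m (by omega)] at hmem
      have h2 := hwf2 m
      rw [hwf m 2 (by norm_num)] at h2
      have h3 : we x c n a b P w (3 * m + 2) =
          P m * ss x c n a b (w m) * (qq a b (w m))⁻¹ * (x ^ sl n (w m).1 2)⁻¹ := by
        rw [← h2]; group
      rw [h3] at hmem
      have h4 : (P m * ss x c n a b (w m) * (qq a b (w m))⁻¹ * (x ^ sl n (w m).1 2)⁻¹)⁻¹ *
          (P m * ss x c n a b (w m) * l m * (pp a b (w (m + 1)))⁻¹) =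
          x ^ sl n (w m).1 2 * (qq a b (w m) * l m * (pp a b (w (m + 1)))⁻¹) := by
        group
      rw [h4] at hmem
      have h1 : (x ^ sl n (w m).1 2) ∈ Subgroup.zpowers x :=
        Subgroup.zpow_mem _ (Subgroup.mem_zpowers x) _
      obtain ⟨t, ht⟩ := (Subgroup.mul_mem_cancel_left _ h1).1 hmem
      have hl : l m = (qq a b (w m))⁻¹ * x ^ t * pp a b (w (m + 1)) := by
        simp only at ht
        rw [ht]; group
      have hlm := hw.mem m (by omega)
      have hred := hw.red m hm1
      rw [hl] at hlm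
      generalize hwm : w m = s at *
      generalize hwm' : w (m + 1) = s' at *
      obtain ⟨s1, s2⟩ := s
      obtain ⟨s1', s2'⟩ := s'
      cases s1 <;> cases s1'
      · simp only [qq, pp] at hlm
        exact hS.ba _ _ t (by simpa using hlm)
      · simp only [qq, pp] at hlm
        obtain ⟨h5, h6⟩ := hS.bb s2 s2' t (by simpa using hlm)
        apply hred
        refine ⟨?_, h6.symm, by simp⟩
        rw [hl, h5, h6]
        simp [qq, pp]
      · simp only [qq, pp] at hlm
        obtain ⟨h5, h6⟩ := hS.aa s2 s2' t (by simpa using hlm)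
        apply hred
        refine ⟨?_, h6.symm, by simp⟩
        rw [hl, h5, h6]
        simp [qq, pp]
      · simp only [qq, pp] at hlm
        exact hS.ab _ _ t (by simpa using hlm)
  · -- gap
    intro i hi u
    obtain ⟨m, r, hr, rfl⟩ : ∃ m r, r < 3 ∧ i = 3 * m + r :=
      ⟨i / 3, i % 3, Nat.mod_lt _ (by norm_num), (Nat.div_add_mod i 3).symm⟩
    by_cases hr2 : r < 2
    · rw [hin m r hr2]
      have := hshort u (wf x c n a b P w (3 * m + r)) _ (hcc (w m).1)
      omega
    · have hr' : r = 2 := by omega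
      subst hr'
      have e : 3 * m + 2 + 1 = 3 * (m + 1) := by ring
      rw [e, hwe0 (m + 1), hw.step m (by omega), hwf2 m]
      exact hjun u _ _ _ _ (hw.mem m (by omega)) (hKq _) (hKp _)
  · intro u
    have e0 := hwe0 0
    rw [mul_zero] at e0
    rw [e0]
    have e := A.s_add u p (P 0) (P 0 * (pp a b (w 0))⁻¹)
    have h1 := hL u p (P 0) hp
    have h2 := hshort u (P 0) (pp a b (w 0))⁻¹ (by rw [H.len_inv]; exact hKp _)
    rw [← e]
    have t1 := abs_add_le (A.s u p (P 0)) (A.s u (P 0) (P 0 * (pp a b (w 0))⁻¹))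
    omega
  · intro u
    have e : 3 * R - 1 = 3 * (R - 1) + 2 := by omega
    rw [e, hwf2 (R - 1)]
    set X := P (R - 1) * ss x c n a b (w (R - 1)) with hX
    have hst := hw.step (R - 1) (by omega)
    rw [Nat.sub_add_cancel hR, ← hX] at hst
    have hq' : X⁻¹ * q ∈ L := by
      have : X⁻¹ * q = l (R - 1) * ((P R)⁻¹ * q) := by
        rw [hst]; group
      rw [this]
      exact mul_mem (hw.mem _ (by omega)) hq
    have e2 := A.s_add u (X * (qq a b (w (R - 1)))⁻¹) X q
    have h1 := hshort u X (qq a b (w (R - 1)))⁻¹ (by rw [H.len_inv]; exact hKq _)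
    have h2 := hL u X q hq'
    rw [A.s_symm u X] at e2
    rw [← e2]
    have t1 := abs_add_le (-A.s u X (X * (qq a b (w (R - 1)))⁻¹)) (A.s u X q)
    rw [abs_neg] at t1
    omega

end Pool.Agent.TH883.TD.J2162
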