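import Pool.Agent.TH714.TD.Defs

/-!
# Reduced words for elements of the extended subgroup; periodic words (helper883, job 2163)
-/

set_option autoImplicit false

namespace Pool.Agent.TH883.TD.J2163

open Pool.Agent.TH64 Pool.Agent.TH714.TD

variable {G : Type*} [Group G] {x : G} {k : ℕ}

theorem ss_inv (c : G) (n : ℕ) (a b : Fin k → G) {s t : Bool × Fin k} (h2 : t.2 = s.2)
    (h1 : t.1 ≠ s.1) : ss x c n a b s * ss x c n a b t = 1 := by
  obtain ⟨s1, s2⟩ := s
  obtain ⟨t1, t2⟩ := t
  simp only at h1 h2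
  subst h2
  cases s1 <;> cases t1 <;> simp_all [ss]
  · group
  · group

theorem ss_mem (L : Subgroup G) (c : G) (n : ℕ) (a b : Fin k → G) (s : Bool × Fin k) :
    ss x c n a b s ∈ Lx L x c n a b := by
  obtain ⟨s1, s2⟩ := s
  have h : (b s2)⁻¹ * tt x c n * a s2 ∈ Lx L x c n a b :=
    Subgroup.subset_closure (Or.inr ⟨s2, rfl⟩)
  cases s1
  · have h2 := inv_mem h
    have e : ((b s2)⁻¹ * tt x c n * a s2)⁻¹ = ss x c n a b (false, s2) := by
      simp [ss, mul_assoc]
    rwa [e] at h2
  · simpa [ss] using h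

theorem mem_Lx (L : Subgroup G) (c : G) (n : ℕ) (a b : Fin k → G) {l : G} (hl : l ∈ L) :
    l ∈ Lx L x c n a b := Subgroup.subset_closure (Or.inl hl)

/-- `g` has a reduced word -/
def HasW (L : Subgroup G) (x c : G) (n : ℕ) (a b : Fin k → G) (g : G) : Prop :=
  ∃ (R : ℕ) (P : ℕ → G) (w : ℕ → Bool × Fin k) (l : ℕ → G),
      P 0 ∈ L ∧ Wd L x c n a b R P w l ∧ P R = g

theorem hasW_mul_L {L : Subgroup G} {c : G} {n : ℕ} {a b : Fin k → G} {g l' : G} (hl : l' ∈ L)
    (h : HasW L x c n a b g) : HasW L x c n a b (l' * g) := by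
  obtain ⟨R, P, w, l, h0, hw, hR⟩ := h
  refine ⟨R, fun i => l' * P i, w, l, mul_mem hl h0, ⟨hw.mem, ?_, hw.red⟩, by simp [hR]⟩
  intro i hi
  simp only [hw.step i hi, mul_assoc]

theorem hasW_mul_ss {L : Subgroup G} {c : G} {n : ℕ} {a b : Fin k → G} {g : G}
    (s : Bool × Fin k) (h : HasW L x c n a b g) : HasW L x c n a b (ss x c n a b s * g) := by
  obtain ⟨R, P, w, l, h0, hw, hR⟩ := h
  by_cases hc : 0 < R ∧ P 0 = 1 ∧ (w 0).2 = s.2 ∧ (w 0).1 ≠ s.1
  · obtain ⟨hR0, hP0, h2, h1⟩ := hc
    refine ⟨R - 1, fun i => ss x c n a b s * P (i + 1), fun i => w (i + 1), fun i => l (i + 1),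
      ?_, ⟨?_, ?_, ?_⟩, ?_⟩
    · have := hw.step 0 hR0
      simp only [this, hP0, one_mul, ← mul_assoc, ss_inv c n a b h2 h1]
      exact hw.mem 0 hR0
    · intro i hi
      exact hw.mem (i + 1) (by omega)
    · intro i hi
      simp only [hw.step (i + 1) (by omega), mul_assoc]
    · intro i hi
      exact hw.red (i + 1) (by omega)
    · simp only
      rw [Nat.sub_add_cancel hR0, hR]
  · refine ⟨R + 1, fun i => Nat.casesOn i 1 (fun i => ss x c n a b s * P i),
      fun i => Nat.casesOn i s w, fun i => Nat.casesOn i (P 0) l, L.one_mem, ⟨?_, ?_, ?_⟩, ?_⟩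
    · intro i hi
      cases i with
      | zero => exact h0
      | succ i => exact hw.mem i (by omega)
    · intro i hi
      cases i with
      | zero => simp
      | succ i =>
        have := hw.step i (by omega)
        simp only [this, mul_assoc]
    · intro i hi
      cases i with
      | zero =>
        intro ⟨e1, e2, e3⟩
        exact hc ⟨by omega, e1, e2, e3⟩
      | succ i => exact hw.red i (by omega)
    · simp only [hR]

theorem exists_wd {G : Type*} [Group G] {x : G} {k : ℕ} (hk : 0 < k) (L : Subgroup G) (c : G)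
    (a b : Fin k → G) (n : ℕ) (g : G) (hg : g ∈ Lx L x c n a b) :
    ∃ (R : ℕ) (P : ℕ → G) (w : ℕ → Bool × Fin k) (l : ℕ → G),
      P 0 ∈ L ∧ Wd L x c n a b R P w l ∧ P R = g := by
  change HasW L x c n a b g
  unfold Lx at hg
  induction hg using Subgroup.closure_induction_left with
  | one =>
    exact ⟨0, fun _ => 1, fun _ => (true, ⟨0, hk⟩), fun _ => 1, L.one_mem,
      ⟨fun i hi => absurd hi (by omega), fun i hi => absurd hi (by omega),
        fun i hi => absurd hi (by omega)⟩, rfl⟩
  | mul_left y hy z hz ih =>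
    rcases hy with hy | ⟨j, rfl⟩
    · exact hasW_mul_L hy ih
    · have := hasW_mul_ss (true, j) ih
      simpa [ss] using this
  | inv_mul_cancel y hy z hz ih =>
    rcases hy with hy | ⟨j, rfl⟩
    · exact hasW_mul_L (inv_mem hy) ih
    · have := hasW_mul_ss (false, j) ih
      have e : ss x c n a b (false, j) = ((b j)⁻¹ * tt x c n * a j)⁻¹ := by
        simp [ss, mul_assoc]
      rwa [e] at this

theorem exists_per {G : Type*} [Group G] {x : G} {k : ℕ} (hk : 0 < k) (L : Subgroup G) (c : G)
    (a b : Fin k → G) (n : ℕ) (σ h : G) (hσ : h⁻¹ * σ * h ∈ Lx L x c n a b)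
    (hno : ∀ g ∈ Lx L x c n a b, (h * g)⁻¹ * σ * (h * g) ∉ L) :
    ∃ (R : ℕ) (P : ℕ → G) (w : ℕ → Bool × Fin k) (l : ℕ → G), 0 < R ∧
      h⁻¹ * P 0 ∈ Lx L x c n a b ∧ (∀ r, Wd L x c n a b r P w l) ∧
      (∀ i, P (i + R) = σ * P i) ∧ (∀ i, w (i + R) = w i) := by
  classical
  have hex : ∃ R : ℕ, ∃ g ∈ Lx L x c n a b, ∃ (P : ℕ → G) (w : ℕ → Bool × Fin k) (l : ℕ → G),
      P 0 = 1 ∧ Wd L x c n a b R P w l ∧ P R = (h * g)⁻¹ * σ * (h * g) := by
    obtain ⟨R, P, w, l, h0, hw, hR⟩ := exists_wd hk L c a b n _ hσ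
    have hR0 : 0 < R := by
      rcases Nat.eq_zero_or_pos R with h' | h'
      · subst h'
        exfalso
        apply hno 1 (one_mem _)
        rw [mul_one, ← hR]
        exact h0
      · exact h'
    refine ⟨R, P 0, mem_Lx L c n a b h0, fun i => if i < R then (P 0)⁻¹ * P i else
      (P 0)⁻¹ * P i * P 0, w, fun i => if i + 1 < R then l i else l i * P 0, by simp [hR0],
      ⟨?_, ?_, ?_⟩, ?_⟩
    · intro i hi
      by_cases h' : i + 1 < R
      · simpa [h'] using hw.mem i hi
      · simpa [h'] using mul_mem (hw.mem i hi) h0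
    · intro i hi
      by_cases h' : i + 1 < R
      · simp [h', hi, hw.step i hi, mul_assoc]
      · simp [h', hi, hw.step i hi, mul_assoc]
    · intro i hi
      simpa [hi] using hw.red i hi
    · simp [hR, mul_assoc]
  obtain ⟨g, hg, P, w, l, h0, hw, hR⟩ := Nat.find_spec hex
  have hmin := fun R' (hR' : R' < Nat.find hex) => Nat.find_min hex hR'
  set R := Nat.find hex with hRdef
  clear_value R
  have hR0 : 0 < R := by
    rcases Nat.eq_zero_or_pos R with h' | h'
    · exfalso
      subst h'
      apply hno g hg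
      rw [← hR, h0]
      exact one_mem _
    · exact h'
  have hcyc : ¬ (l (R - 1) = 1 ∧ (w 0).2 = (w (R - 1)).2 ∧ (w 0).1 ≠ (w (R - 1)).1) := by
    rintro ⟨e1, e2, e3⟩
    have hR1 : R ≠ 1 := by
      rintro rfl
      exact e3 rfl
    have hss := ss_inv (x := x) c n a b e2 e3
    have s0 := hw.step 0 hR0
    rw [h0, one_mul] at s0
    have sl := hw.step (R - 1) (by omega)
    rw [Nat.sub_add_cancel hR0, e1, mul_one] at sl
    rw [zero_add] at s0
    have hg' : g * P 1 ∈ Lx L x c n a b := by
      rw [s0]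
      exact mul_mem hg (mul_mem (ss_mem L c n a b _) (mem_Lx L c n a b (hw.mem 0 hR0)))
    have hval : (h * (g * P 1))⁻¹ * σ * (h * (g * P 1)) = (P 1)⁻¹ * P (R - 1) * l 0 := by
      have : (h * (g * P 1))⁻¹ * σ * (h * (g * P 1)) =
          (P 1)⁻¹ * ((h * g)⁻¹ * σ * (h * g)) * P 1 := by
        group
      rw [this, ← hR, sl]
      conv_lhs => rw [mul_assoc, mul_assoc]
      have h3 : ss x c n a b (w (R - 1)) * P 1 = l 0 := by
        rw [s0, ← mul_assoc, hss, one_mul]
      rw [h3, mul_assoc]
    rcases Nat.lt_or_ge R 3 with h3 | h3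
    · have hR2 : R = 2 := by omega
      apply hno _ hg'
      rw [hval, hR2]
      simpa using hw.mem 0 hR0
    · apply hmin (R - 2) (by omega)
      refine ⟨g * P 1, hg', fun i => if i < R - 2 then (P 1)⁻¹ * P (i + 1) else
        (P 1)⁻¹ * P (i + 1) * l 0, fun i => w (i + 1),
        fun i => if i + 1 < R - 2 then l (i + 1) else l (i + 1) * l 0, ?_, ⟨?_, ?_, ?_⟩, ?_⟩
      · have : 0 < R - 2 := by omega
        simp [this]
      · intro i hi
        by_cases h' : i + 1 < R - 2
        · simpa [h'] using hw.mem (i + 1) (by omega)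
        · simpa [h'] using mul_mem (hw.mem (i + 1) (by omega)) (hw.mem 0 hR0)
      · intro i hi
        by_cases h' : i + 1 < R - 2
        · simp [h', hi, hw.step (i + 1) (by omega), mul_assoc]
        · simp [h', hi, hw.step (i + 1) (by omega), mul_assoc]
      · intro i hi
        simpa [hi] using hw.red (i + 1) (by omega)
      · have e : R - 2 + 1 = R - 1 := by omega
        simp only [lt_irrefl, if_false, e]
        exact hval.symm
  set τ := (h * g)⁻¹ * σ * (h * g) with hτ
  have hστ : h * g * τ = σ * (h * g) := by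
    rw [hτ]
    group
  refine ⟨R, fun i => h * g * τ ^ (i / R) * P (i % R), fun i => w (i % R), fun i => l (i % R),
    hR0, ?_, ?_, ?_, ?_⟩
  · simp [h0, hg, ← mul_assoc]
  · intro r
    refine ⟨?_, ?_, ?_⟩
    · intro i _
      exact hw.mem _ (Nat.mod_lt _ hR0)
    · intro i _
      have hlt := Nat.mod_lt i hR0
      by_cases h' : i % R + 1 < R
      · have e1 : (i + 1) % R = i % R + 1 := by
          rw [Nat.add_mod, Nat.mod_eq_of_lt (show 1 < R by omega), Nat.mod_eq_of_lt h']
        have e2 : (i + 1) / R = i / R := by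
          have := Nat.div_add_mod i R
          have h2 := Nat.div_add_mod (i + 1) R
          rw [e1] at h2
          have h3 : R * ((i + 1) / R) = R * (i / R) := by omega
          exact Nat.eq_of_mul_eq_mul_left hR0 h3
        simp only [e1, e2]
        rw [hw.step _ hlt]
        simp only [mul_assoc]
      · have e0 : i % R = R - 1 := by omega
        have e1 : i + 1 = R * (i / R + 1) := by
          have := Nat.div_add_mod i R
          rw [mul_add, mul_one]
          omega
        have e2 : (i + 1) / R = i / R + 1 := by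
          rw [e1]
          exact Nat.mul_div_cancel_left _ hR0
        have e3 : (i + 1) % R = 0 := by
          rw [e1]
          exact Nat.mul_mod_right _ _
        simp only [e2, e3, e0, h0, mul_one]
        have s1 := hw.step (R - 1) (by omega)
        rw [Nat.sub_add_cancel hR0, hR] at s1
        rw [pow_succ, s1]
        simp only [mul_assoc]
    · intro i _
      have hlt := Nat.mod_lt i hR0
      by_cases h' : i % R + 1 < R
      · have e1 : (i + 1) % R = i % R + 1 := by
          rw [Nat.add_mod, Nat.mod_eq_of_lt (show 1 < R by omega), Nat.mod_eq_of_lt h']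
        simp only [e1]
        exact hw.red _ h'
      · have e0 : i % R = R - 1 := by omega
        have e1 : i + 1 = R * (i / R + 1) := by
          have := Nat.div_add_mod i R
          rw [mul_add, mul_one]
          omega
        have e3 : (i + 1) % R = 0 := by
          rw [e1]
          exact Nat.mul_mod_right _ _
        simp only [e3, e0]
        exact hcyc
  · intro i
    have e1 : (i + R) / R = i / R + 1 := Nat.add_div_right i hR0
    simp only [e1, Nat.add_mod_right, pow_succ']
    rw [← mul_assoc (h * g) τ, hστ]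
    simp only [mul_assoc]
  · intro i
    simp only [Nat.add_mod_right]

end Pool.Agent.TH883.TD.J2163
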